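import Mathlib

/-!
# Sullivan vertices: a map on a minimal counterexample

`Z U v` are the vertices of `U` not reached from `v` in at most two steps, `M U v` the non-neighbours
of `v` in `U`.  In a minimal counterexample every vertex `z` has a non-neighbour `y` for which
`|M(y) ∖ A(z)| + 1 ≤ |Z(y) ∖ A(z)|`, where `A(z)` are the vertices other than `z` and its
out-neighbours.  If this holds for `(z, y)` and for `(y, z)`, then there is a 4-cycle of
non-adjacencies.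
-/

set_option autoImplicit false

namespace Pool.Agent.SulFor

open Finset

section
variable {V : Type*} [DecidableEq V] (adj : V → V → Prop) [DecidableRel adj]

/-- The vertices of `U` not reached from `v` by a directed path of length at most two in `U`. -/
def Z (U : Finset V) (v : V) : Finset V :=
  U.filter fun w => w ≠ v ∧ ¬ adj v w ∧ ∀ u ∈ U, adj v u → ¬ adj u w

/-- The non-neighbours of `v` in `U`. -/
def M (U : Finset V) (v : V) : Finset V := U.filter fun w => w ≠ v ∧ ¬ adj v w ∧ ¬ adj w v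

/-- The vertices of `U` other than `z` and its out-neighbours. -/
def A (U : Finset V) (z : V) : Finset V := U.filter fun w => w ≠ z ∧ ¬ adj z w

/-- `v` is a Sullivan vertex of the subgraph induced by `U`. -/
def Sul (U : Finset V) (v : V) : Prop := v ∈ U ∧ (Z adj U v).card ≤ (M adj U v).card

/-- The relation obtained for a minimal counterexample. -/
def Rel (U : Finset V) (z y : V) : Prop :=
  y ∈ M adj U z ∧ (M adj U y \ A adj U z).card + 1 ≤ (Z adj U y \ A adj U z).card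

variable {adj}

theorem mem_Z {U : Finset V} {v w : V} :
    w ∈ Z adj U v ↔ w ∈ U ∧ w ≠ v ∧ ¬ adj v w ∧ ∀ u ∈ U, adj v u → ¬ adj u w := by
  unfold Z; rw [mem_filter]

theorem mem_M {U : Finset V} {v w : V} :
    w ∈ M adj U v ↔ w ∈ U ∧ w ≠ v ∧ ¬ adj v w ∧ ¬ adj w v := by
  unfold M; rw [mem_filter]

theorem mem_A {U : Finset V} {v w : V} : w ∈ A adj U v ↔ w ∈ U ∧ w ≠ v ∧ ¬ adj v w := by
  unfold A; rw [mem_filter]

theorem exists_rel {U : Finset V} (hno : ∀ v, ¬ Sul adj U v)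
    (hmin : ∀ W, W ⊂ U → W.Nonempty → ∃ v, Sul adj W v) {z : V} (hz : z ∈ U) :
    ∃ y, Rel adj U z y := by
  have hzA : z ∉ A adj U z := fun h => (mem_A.1 h).2.1 rfl
  have hAU : A adj U z ⊆ U := filter_subset _ _
  have hA : (A adj U z).Nonempty := by
    rw [nonempty_iff_ne_empty]
    intro he
    apply hno z
    refine ⟨hz, ?_⟩
    have h1 : Z adj U z ⊆ A adj U z := by
      intro w hw
      rw [mem_Z] at hw
      exact mem_A.2 ⟨hw.1, hw.2.1, hw.2.2.1⟩
    rw [he, subset_empty] at h1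
    rw [h1, card_empty]
    exact Nat.zero_le _
  obtain ⟨y, hyA, hy⟩ := hmin (A adj U z)
    ⟨hAU, fun h => hzA (h hz)⟩ hA
  have hyA' := mem_A.1 hyA
  have hMA : M adj (A adj U z) y ⊆ M adj U y ∩ A adj U z := by
    intro w hw
    rw [mem_M] at hw
    rw [mem_inter]
    exact ⟨mem_M.2 ⟨hAU hw.1, hw.2⟩, hw.1⟩
  have hZA : Z adj U y ∩ A adj U z ⊆ Z adj (A adj U z) y := by
    intro w hw
    rw [mem_inter, mem_Z] at hw
    exact mem_Z.2 ⟨hw.2, hw.1.2.1, hw.1.2.2.1, fun u hu => hw.1.2.2.2 u (hAU hu)⟩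
  have hlt : (M adj U y).card + 1 ≤ (Z adj U y).card := by
    by_contra hcon
    exact hno y ⟨hyA'.1, by omega⟩
  have h1 := card_le_card hMA
  have h2 := card_le_card hZA
  have h3 : ((M adj U y) ∩ (A adj U z)).card + ((M adj U y) \ (A adj U z)).card =
      (M adj U y).card := card_inter_add_card_sdiff _ _
  have h4 : ((Z adj U y) ∩ (A adj U z)).card + ((Z adj U y) \ (A adj U z)).card =
      (Z adj U y).card := card_inter_add_card_sdiff _ _
  have hyz : ¬ adj y z := by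
    intro h
    have h5 : Z adj U y \ A adj U z = ∅ := by
      rw [sdiff_eq_empty_iff_subset]
      intro w hw
      rw [mem_Z] at hw
      refine mem_A.2 ⟨hw.1, ?_, ?_⟩
      · rintro rfl
        exact hw.2.2.1 h
      · exact hw.2.2.2 z hz h
    rw [h5, card_empty] at h4
    omega
  refine ⟨y, mem_M.2 ⟨hyA'.1, hyA'.2.1, hyA'.2.2, hyz⟩, ?_⟩
  omega

theorem rel_elem {U : Finset V} {z y q : V} (h : Rel adj U z y) (hz : z ∈ U)
    (hq : q ∈ (Z adj U y \ A adj U z) \ (M adj U y \ A adj U z)) :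
    q ∈ U ∧ adj z q ∧ adj q y ∧ q ∈ Z adj U y := by
  rw [mem_sdiff, mem_sdiff, mem_sdiff] at hq
  obtain ⟨⟨hqZ, hqA⟩, hqM⟩ := hq
  have hyz := mem_M.1 h.1
  have hqZ' := mem_Z.1 hqZ
  have hqM' : q ∉ M adj U y := fun h' => hqM ⟨h', hqA⟩
  have hqz : q ≠ z := by
    rintro rfl
    exact hqM' (mem_M.2 ⟨hz, hyz.2.1.symm, hyz.2.2.2, hyz.2.2.1⟩)
  refine ⟨hqZ'.1, ?_, ?_, hqZ⟩
  · by_contra hcon
    exact hqA (mem_A.2 ⟨hqZ'.1, hqz, hcon⟩)
  · by_contra hcon
    exact hqM' (mem_M.2 ⟨hqZ'.1, hqZ'.2.1, hqZ'.2.2.1, hcon⟩)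

theorem rel_one {U : Finset V} {z y : V} (h : Rel adj U z y) (hz : z ∈ U) :
    ∃ q ∈ U, adj z q ∧ adj q y := by
  obtain ⟨q, hq, hq'⟩ := exists_mem_notMem_of_card_lt_card
    (show (M adj U y \ A adj U z).card < (Z adj U y \ A adj U z).card by have := h.2; omega)
  have := rel_elem h hz (mem_sdiff.2 ⟨hq, hq'⟩)
  exact ⟨q, this.1, this.2.1, this.2.2.1⟩

theorem rel_two {U : Finset V} {z y : V} (h : Rel adj U z y) (hz : z ∈ U)
    (hzy : z ∉ Z adj U y) :
    1 < ((Z adj U y \ A adj U z) \ (M adj U y \ A adj U z)).card := by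
  have hyz := mem_M.1 h.1
  have hzA : z ∉ A adj U z := fun h => (mem_A.1 h).2.1 rfl
  have hzM : z ∈ M adj U y \ A adj U z :=
    mem_sdiff.2 ⟨mem_M.2 ⟨hz, hyz.2.1.symm, hyz.2.2.2, hyz.2.2.1⟩, hzA⟩
  have h1 : ((Z adj U y \ A adj U z) ∩ (M adj U y \ A adj U z)).card +
      ((Z adj U y \ A adj U z) \ (M adj U y \ A adj U z)).card =
      (Z adj U y \ A adj U z).card := card_inter_add_card_sdiff _ _
  have h2 : (Z adj U y \ A adj U z) ∩ (M adj U y \ A adj U z) ⊆
      (M adj U y \ A adj U z).erase z := by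
    intro w hw
    rw [mem_inter, mem_sdiff] at hw
    rw [mem_erase]
    refine ⟨?_, hw.2⟩
    rintro rfl
    exact hzy hw.1.1
  have h3 := card_le_card h2
  have h4 := card_erase_add_one hzM
  have h5 := h.2
  omega

/-- If `Rel` holds in both directions, there is a 4-cycle of non-adjacencies. -/
theorem four_cycle (has : ∀ x y, adj x y → ¬ adj y x) {U : Finset V} {z y : V}
    (hz : z ∈ U) (hy : y ∈ U) (h : Rel adj U z y) (h' : Rel adj U y z) :
    ∃ a ∈ U, ∃ b ∈ U, ∃ c ∈ U, ∃ d ∈ U, a ≠ c ∧ b ≠ d ∧ b ∈ M adj U a ∧ c ∈ M adj U b ∧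
      d ∈ M adj U c ∧ a ∈ M adj U d := by
  obtain ⟨q, hqU, hzq, hqy⟩ := rel_one h hz
  obtain ⟨q', hqU', hyq', hqz'⟩ := rel_one h' hy
  have h1 : z ∉ Z adj U y := fun hc => (mem_Z.1 hc).2.2.2 q' hqU' hyq' hqz'
  have h2 : y ∉ Z adj U z := fun hc => (mem_Z.1 hc).2.2.2 q hqU hzq hqy
  obtain ⟨a, ha, c, hc, hac⟩ := one_lt_card.1 (rel_two h hz h1)
  obtain ⟨b, hb, d, hd, hbd⟩ := one_lt_card.1 (rel_two h' hy h2)
  have key : ∀ s t, s ∈ (Z adj U y \ A adj U z) \ (M adj U y \ A adj U z) →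
      t ∈ (Z adj U z \ A adj U y) \ (M adj U z \ A adj U y) →
      t ∈ M adj U s ∧ s ∈ M adj U t := by
    intro s t hs ht
    obtain ⟨hsU, hzs, hsy, hsZ⟩ := rel_elem h hz hs
    obtain ⟨htU, hyt, htz, htZ⟩ := rel_elem h' hy ht
    have h3 : ¬ adj t s := (mem_Z.1 hsZ).2.2.2 t htU hyt
    have h4 : ¬ adj s t := (mem_Z.1 htZ).2.2.2 s hsU hzs
    have h5 : s ≠ t := by
      rintro rfl
      exact has _ _ hsy hyt
    exact ⟨mem_M.2 ⟨htU, h5.symm, h4, h3⟩, mem_M.2 ⟨hsU, h5, h3, h4⟩⟩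
  refine ⟨a, (rel_elem h hz ha).1, b, (rel_elem h' hy hb).1, c, (rel_elem h hz hc).1, d,
    (rel_elem h' hy hd).1, hac, hbd, (key a b ha hb).1, (key c b hc hb).2, (key c d hc hd).1,
    (key a d ha hd).2⟩

end

end Pool.Agent.SulFor
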