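import Mathlib

/-!
# A map along the edges of a forest has a 2-cycle
-/

set_option autoImplicit false

namespace Pool.Agent.SulFor

open Finset

theorem leaf {W : Type*} [Finite W] [Nonempty W] (G : SimpleGraph W) (hG : G.IsAcyclic) :
    ∃ u, ∀ w w', G.Adj u w → G.Adj u w' → w = w' := by
  obtain ⟨u, v, p, hp, hmax⟩ := SimpleGraph.Walk.exists_isPath_forall_isPath_length_le_length G
  refine ⟨u, ?_⟩
  have key : ∀ w, G.Adj u w → w = p.snd := by
    intro w hadj
    by_cases hnil : p.Nil
    · exfalso
      have h1 : (SimpleGraph.Walk.cons hadj SimpleGraph.Walk.nil).IsPath := by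
        simp [SimpleGraph.Walk.cons_isPath_iff, hadj.ne]
      have h2 := hmax _ _ _ h1
      have h3 := SimpleGraph.Walk.length_eq_zero_iff.2 hnil
      simp at h2
      omega
    · apply hG.eq_snd_of_adj_start hp hadj
      have h1 : ¬(p.cons hadj.symm).IsPath := by
        intro h1
        have h2 := hmax _ _ _ h1
        rw [SimpleGraph.Walk.length_cons] at h2
        omega
      by_contra hcon
      exact h1 (hp.cons hcon)
  intro w w' hw hw'
  rw [key w hw, key w' hw']

theorem two_cycle {V : Type*} [DecidableEq V] (G : SimpleGraph V) (f : V → V) :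
    ∀ (n : ℕ) (K : Finset V), K.card = n → K.Nonempty → (G.induce (K : Set V)).IsAcyclic →
      (∀ z ∈ K, f z ∈ K ∧ G.Adj z (f z)) → ∃ z ∈ K, f (f z) = z := by
  intro n
  induction n using Nat.strong_induction_on with
  | _ n ih =>
    intro K hn hK hG hf
    have hsub : K.image f ⊆ K := by
      intro w hw
      obtain ⟨z, hz, rfl⟩ := mem_image.1 hw
      exact (hf z hz).1
    by_cases heq : K.image f = K
    · have : Nonempty (K : Set V) := hK.coe_sort
      have : Finite (K : Set V) := K.finite_toSet
      obtain ⟨⟨x, hx⟩, hux⟩ := leaf _ hG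
      have hx' : x ∈ K := hx
      have hx2 : x ∈ K.image f := by rw [heq]; exact hx'
      obtain ⟨w, hw, hwx⟩ := mem_image.1 hx2
      have h1 := hf x hx'
      have h2 := hf w hw
      have h3 := hux ⟨w, hw⟩ ⟨f x, h1.1⟩
        (by
          rw [SimpleGraph.comap_adj]
          rw [hwx] at h2
          exact h2.2.symm)
        (by
          rw [SimpleGraph.comap_adj]
          exact h1.2)
      refine ⟨x, hx', ?_⟩
      have h4 : w = f x := by simpa using h3
      rw [← h4, hwx]
    · have hlt : (K.image f).card < n := by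
        rw [← hn]
        exact card_lt_card (Finset.ssubset_iff_subset_ne.2 ⟨hsub, heq⟩)
      obtain ⟨z, hz, hzz⟩ := ih _ hlt (K.image f) rfl (hK.image f) (by
        have h1 : ((K.image f : Finset V) : Set V) ⊆ (K : Set V) := by
          exact_mod_cast hsub
        exact hG.embedding (SimpleGraph.induceHomOfLE G h1)) (by
        intro z hz
        exact ⟨mem_image_of_mem f (hsub hz), (hf z (hsub hz)).2⟩)
      exact ⟨z, hsub hz, hzz⟩

end Pool.Agent.SulFor
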