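import Pool.Agent.SulFor.Base
import Pool.Agent.SulFor.Func
import Pool.Agent.SulFew.Main

/-!
# Sullivan vertices of orientations of complements of forests
-/

set_option autoImplicit false

namespace Pool.Agent.SulFor

open Finset

/-- The graph of the pairs of non-adjacent vertices. -/
def co {V : Type*} (adj : V → V → Prop) : SimpleGraph V where
  Adj x y := x ≠ y ∧ ¬ adj x y ∧ ¬ adj y x
  symm := ⟨fun _ _ h => ⟨h.1.symm, h.2.2, h.2.1⟩⟩
  loopless := ⟨fun _ h => h.1 rfl⟩

section
variable {V : Type*} [DecidableEq V] {adj : V → V → Prop} [DecidableRel adj]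

theorem mem_M_iff {U : Finset V} {v w : V} : w ∈ M adj U v ↔ w ∈ U ∧ (co adj).Adj v w := by
  rw [mem_M]
  constructor
  · rintro ⟨h1, h2, h3, h4⟩
    exact ⟨h1, h2.symm, h3, h4⟩
  · rintro ⟨h1, h2, h3, h4⟩
    exact ⟨h1, h2.symm, h3, h4⟩

/-- Degrees at most three: the theorem of `SulFew`. -/
theorem sul_of_three (has : ∀ x y, adj x y → ¬ adj y x) {U : Finset V} (hU : U.Nonempty)
    (h3 : ∀ x ∈ U, (M adj U x).card ≤ 3) : ∃ v, Sul adj U v := by
  have hne : Nonempty {x // x ∈ U} := hU.coe_sort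
  let adj' : {x // x ∈ U} → {x // x ∈ U} → Prop := fun x y => adj x.1 y.1
  have hdec : DecidableRel adj' := fun x y => inferInstanceAs (Decidable (adj x.1 y.1))
  have has' : ∀ x y, adj' x y → ¬ adj' y x := fun x y h => has x.1 y.1 h
  have hg : ∀ v : {x // x ∈ U},
      ((SulFew.gset adj' v).map (Function.Embedding.subtype _)) = M adj U v.1 := by
    intro v
    ext w
    rw [mem_map, mem_M]
    constructor
    · rintro ⟨w', hw', rfl⟩
      rw [SulFew.mem_g] at hw'
      exact ⟨w'.2, fun h => hw'.1 (Subtype.ext h), hw'.2⟩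
    · rintro ⟨h1, h2, h4⟩
      exact ⟨⟨w, h1⟩, SulFew.mem_g.2 ⟨fun h => h2 (congrArg Subtype.val h), h4⟩, rfl⟩
  have hl : ∀ v : {x // x ∈ U},
      ((SulFew.lset adj' v).map (Function.Embedding.subtype _)) = Z adj U v.1 := by
    intro v
    ext w
    rw [mem_map, mem_Z]
    constructor
    · rintro ⟨w', hw', rfl⟩
      rw [SulFew.mem_l] at hw'
      exact ⟨w'.2, fun h => hw'.1 (Subtype.ext h), hw'.2.1, fun u hu => hw'.2.2 ⟨u, hu⟩⟩
    · rintro ⟨h1, h2, h4, h5⟩
      exact ⟨⟨w, h1⟩, SulFew.mem_l.2 ⟨fun h => h2 (congrArg Subtype.val h), h4,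
        fun u => h5 u.1 u.2⟩, rfl⟩
  obtain ⟨v, _, hv⟩ := SulFew.main (adj := adj') has' (k := 3) le_rfl (by
    intro v _
    rw [← card_map (Function.Embedding.subtype _), hg]
    exact h3 v.1 v.2)
  refine ⟨v.1, v.2, ?_⟩
  rw [← hg, ← hl, card_map, card_map]
  have h1 := SulFew.card_eq (adj := adj') has' v
  omega

/-- The class of sets `U` treated by the theorem. -/
def Ok (G : SimpleGraph V) (U : Finset V) : Prop :=
  (∀ x ∈ U, ({y | y ∈ U ∧ G.Adj x y} : Set V).ncard ≤ 3) ∨
  ((∀ a ∈ U, ∀ b ∈ U, ∀ c ∈ U, ∀ d ∈ U, G.Adj a b → G.Adj b c → G.Adj c d → G.Adj d a →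
      a = c ∨ b = d) ∧
    ∃ K ⊆ U, K.Nonempty ∧ (∀ x ∈ K, ∀ y ∈ U, G.Adj x y → y ∈ K) ∧
      (G.induce (K : Set V)).IsAcyclic)

theorem exists_sul (has : ∀ x y, adj x y → ¬ adj y x)
    (hok : ∀ U : Finset V, U.Nonempty → Ok (co adj) U) :
    ∀ (n : ℕ) (U : Finset V), U.card = n → U.Nonempty → ∃ v, Sul adj U v := by
  intro n
  induction n using Nat.strong_induction_on with
  | _ n ih =>
    intro U hn hU
    by_contra hcon
    push Not at hcon
    have hmin : ∀ W, W ⊂ U → W.Nonempty → ∃ v, Sul adj W v := by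
      intro W hW hWn
      exact ih W.card (by rw [← hn]; exact card_lt_card hW) W rfl hWn
    have hM : ∀ x, ({y | y ∈ U ∧ (co adj).Adj x y} : Set V) = (M adj U x : Set V) := by
      intro x
      ext y
      rw [Set.mem_ofPred_eq, mem_coe, mem_M_iff]
    rcases hok U hU with h | ⟨h4, K, hKU, hK, hKcl, hKac⟩
    · obtain ⟨v, hv⟩ := sul_of_three has hU (by
        intro x hx
        have := h x hx
        rwa [hM, Set.ncard_coe_finset] at this)
      exact hcon v hv
    · have hex : ∀ z, ∃ y, z ∈ U → Rel adj U z y := by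
        intro z
        by_cases hz : z ∈ U
        · obtain ⟨y, hy⟩ := exists_rel hcon hmin hz
          exact ⟨y, fun _ => hy⟩
        · exact ⟨z, fun h => absurd h hz⟩
      choose f hf using hex
      obtain ⟨z, hz, hzz⟩ := two_cycle (co adj) f K.card K rfl hK hKac (by
        intro z hz
        have h1 := hf z (hKU hz)
        have h2 := mem_M_iff.1 h1.1
        exact ⟨hKcl z hz _ h2.1 h2.2, h2.2⟩)
      have hzU := hKU hz
      have h1 := hf z hzU
      have hyU : f z ∈ U := (mem_M_iff.1 h1.1).1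
      have h2 := hf (f z) hyU
      rw [hzz] at h2
      obtain ⟨a, ha, b, hb, c, hc, d, hd, hac, hbd, hab, hbc, hcd, hda⟩ :=
        four_cycle has hzU hyU h1 h2
      rcases h4 a ha b hb c hc d hd (mem_M_iff.1 hab).2 (mem_M_iff.1 hbc).2 (mem_M_iff.1 hcd).2
        (mem_M_iff.1 hda).2 with h | h
      · exact hac h
      · exact hbd h

end

/-- Oriented graphs all of whose nonempty induced subgraphs `D[U]` satisfy: the graph of the
non-adjacent pairs has maximum degree at most three, or it has no 4-cycle and some component is a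
tree. -/
theorem main (n : ℕ) (adj : Fin n → Fin n → Prop) (hn : 0 < n) (has : ∀ x y, adj x y → ¬ adj y x)
    (hok : ∀ U : Finset (Fin n), U.Nonempty → Ok (co adj) U) :
    ∃ v : Fin n, {u : Fin n | adj u v}.ncard ≤
      {w : Fin n | w ≠ v ∧ ¬ adj v w ∧ ∃ u : Fin n, adj v u ∧ adj u w}.ncard := by
  classical
  have hne : (univ : Finset (Fin n)).Nonempty := ⟨⟨0, hn⟩, mem_univ _⟩
  obtain ⟨v, _, hv⟩ := exists_sul has hok _ univ rfl hne
  refine ⟨v, ?_⟩
  rw [SulFew.ncard_nin, SulFew.ncard_yset]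
  have h1 := SulFew.card_eq (adj := adj) has v
  have hg : SulFew.gset adj v = M adj univ v := by
    ext w
    rw [SulFew.mem_g, mem_M]
    simp
  have hl : SulFew.lset adj v = Z adj univ v := by
    ext w
    rw [SulFew.mem_l, mem_Z]
    simp
  rw [hg, hl] at h1
  omega

end Pool.Agent.SulFor
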